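import Mathlib
import Pool.Agent.H270Z.Final

set_option autoImplicit false

namespace Pool.Agent.Results.MP_047497_nt.AMomentBoundFalse

/-- The negated form of Q1 (for every `k ≥ 1` at once). `F` is holomorphic on the connected open
set `ℂ ∖ {1, …, r}` and equals the Barnes series for `Re s > r`, so it is the continuation
of the Barnes zeta function. -/
theorem result :
    ∃ (r : ℕ) (a : ℝ) (w : Fin r → ℝ) (F : ℂ → ℂ), 1 ≤ r ∧ 0 < a ∧ (∀ j, 0 < w j) ∧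
      DifferentiableOn ℂ F {s : ℂ | ∀ n : ℕ, 1 ≤ n → n ≤ r → s ≠ (n : ℂ)} ∧
      (∀ s : ℂ, (r : ℝ) < s.re →
        F s = ∑' m : Fin r → ℕ, (((a + ∑ j, (m j : ℝ) * w j : ℝ) : ℂ) ^ (-s))) ∧
      ∃ ε : ℝ, 0 < ε ∧ ∃ σ : ℝ,
        (r : ℝ) - (Module.finrank ℚ (Submodule.span ℚ (Set.range w)) : ℝ) / 2 ≤ σ ∧
        ∀ k : ℕ, 1 ≤ k →
          ¬ (fun T : ℝ => ∫ t in (1 : ℝ)..T, ‖F ((σ : ℂ) + (t : ℂ) * Complex.I)‖ ^ (2 * k))
            =O[Filter.atTop] (fun T : ℝ => T ^ (1 + ε)) :=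
  Pool.Agent.H270Z.moments_false

end Pool.Agent.Results.MP_047497_nt.AMomentBoundFalse
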